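import Mathlib
import Pool.Agent.Run7.h854.WP.GauB

/-!
# The number of Wilson primes of arithmetic progressions: the Gaussian law

A prime `p` is a Wilson prime of the progression `b, b + a, b + 2a, …` if it does not divide `a`
and if Wilson's congruence for its first `p` terms holds modulo `p ^ 2`; the Wilson primes are those
of the progressions `0, 1, 2, …`. For every first term `b`, and for the differences `a` in an
arbitrary interval of length `X ≥ y ^ 2`, the number of Wilson primes `p ≤ y`, centred at
`log log y` and divided by `√(log log y)`, has the standard normal law in the limit `y → ∞`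
(a theorem of Erdős and Kac type), uniformly in `b`, `X` and the interval.

Proof. Modulo `p ^ 2` there are exactly `p - 1` differences for which `p` is a Wilson prime (library
`Helper92K9.WI` of the starting tree), and for different primes these conditions are independent. The
characteristic function of the number of Wilson primes `p ≤ y ^ (1 / log log y)` is expanded into the
elementary symmetric sums of the indicators up to the order `C √(log log y)`; the remainder is
bounded by the next symmetric sum. The primes between `y ^ (1 / log log y)` and `y` contribute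
`O(log log log y)` on average (a first moment). Then Lévy's convergence theorem.
-/

set_option autoImplicit false

namespace Pool.Agent.Results.MP_de5eaa_nt.GaussianLaw

open Finset Filter Topology MeasureTheory ProbabilityTheory
open scoped Classical Nat

/-- the product of those among the first `p` terms `b, b + a, …, b + (p-1)a` of the progression
that are not divisible by `p` -/
def unitProduct (b a : ℤ) (p : ℕ) : ℤ :=
  ∏ k ∈ (range p).filter (fun k : ℕ => ¬ (p : ℤ) ∣ b + a * k), (b + a * k)

/-- `p` is a Wilson prime of the progression `b, b + a, b + 2a, …`: it does not divide `a`, and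
Wilson's congruence for this progression holds modulo `p ^ 2` -/
def IsWilsonPrime (b a : ℤ) (p : ℕ) : Prop :=
  p.Prime ∧ ¬ (p : ℤ) ∣ a ∧ (p : ℤ) ^ 2 ∣ unitProduct b a p + 1

/-- the number of the Wilson primes `p ≤ y` of the progression -/
noncomputable def number (b a : ℤ) (y : ℕ) : ℕ := ({p ∈ Icc 1 y | IsWilsonPrime b a p} : Finset ℕ).card

/-- the distribution function of the standard normal law -/
noncomputable def Phi (x : ℝ) : ℝ := ((gaussianReal 0 1) (Set.Iic x)).toReal

lemma classical (p : ℕ) (hp : p.Prime) : unitProduct 0 1 p = ((p - 1)! : ℕ) := by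
  unfold unitProduct
  have h1 : (range p).filter (fun k : ℕ => ¬ (p : ℤ) ∣ 0 + 1 * (k : ℤ)) = Ico 1 (p - 1 + 1) := by
    ext k
    rw [mem_filter, mem_range, mem_Ico, zero_add, one_mul, Int.natCast_dvd_natCast]
    have := hp.one_lt
    constructor
    · rintro ⟨h1, h2⟩
      refine ⟨?_, by omega⟩
      rcases Nat.eq_zero_or_pos k with rfl | h
      · exact absurd (dvd_zero p) h2
      · exact h
    · rintro ⟨h1, h2⟩
      exact ⟨by omega, fun h => by
        have := Nat.le_of_dvd h1 h
        omega⟩
  rw [h1, ← Finset.prod_Ico_id_eq_factorial]
  push_cast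
  exact prod_congr rfl fun k _ => by ring

/-- **The Gaussian law for the number of Wilson primes.** -/
theorem result :
    -- the classical Wilson primes
    (∀ p : ℕ, IsWilsonPrime 0 1 p ↔ p.Prime ∧ p ^ 2 ∣ (p - 1)! + 1) ∧
    -- the Gaussian law
    (∀ x ε : ℝ, 0 < ε → ∃ y₀ : ℕ, ∀ y : ℕ, y₀ ≤ y → ∀ X : ℕ, y ^ 2 ≤ X → ∀ b h : ℤ,
      |(({i ∈ Icc 1 X | ((number b (h + i) y : ℝ) - Real.log (Real.log y)) /
        √(Real.log (Real.log y)) ≤ x} : Finset ℕ).card : ℝ) / X - Phi x| ≤ ε) := by
  refine ⟨?_, ?_⟩
  · intro p
    constructor
    · rintro ⟨hp, _, h2⟩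
      refine ⟨hp, ?_⟩
      rw [classical p hp] at h2
      exact_mod_cast h2
    · rintro ⟨hp, h2⟩
      refine ⟨hp, ?_, ?_⟩
      · intro h
        have h3 : p ∣ 1 := by exact_mod_cast h
        exact hp.one_lt.ne' (Nat.dvd_one.1 h3)
      · rw [classical p hp]
        exact_mod_cast h2
  · intro x ε hε
    exact Run7.h854.WP.gauss x hε

end Pool.Agent.Results.MP_de5eaa_nt.GaussianLaw
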