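import Pool.Agent.Run7.h202.Wil.Avg

set_option autoImplicit false

/-!
# Wilson primes of order `n`: upper bounds for almost all orders

A prime `p ≥ n` is a Wilson prime of order `n` if `(n - 1)! (p - n)! ≡ (-1) ^ n` modulo `p ^ 2`
(order one: the Wilson primes). No bound better than the number of all primes is known for a single
order. We show that the sets of the Wilson primes of different orders are almost disjoint, that
every prime is a Wilson prime of at most `3/2 p^(2/3) + 1` orders, and deduce bounds for the number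
of the Wilson primes `p ≤ x` of almost all orders and of almost all progressions with a given
difference.
-/

namespace Pool.Agent.Results.MP_de5eaa_nt.OrdersOnAverage

open Finset
open scoped Classical Nat

/-- `p` is a Wilson prime of order `n` -/
def IsWilsonPrimeOfOrder (n p : ℕ) : Prop :=
  p.Prime ∧ 1 ≤ n ∧ n ≤ p ∧ (p : ℤ) ^ 2 ∣ ((n - 1)! : ℕ) * ((p - n)! : ℕ) - (-1) ^ n

/-- the number of the Wilson primes `p ≤ x` of order `n` -/
noncomputable def W (n x : ℕ) : ℕ := ((Icc 1 x).filter (fun p => IsWilsonPrimeOfOrder n p)).card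

/-- the product of those among the first `p` terms `b, b + a, …, b + (p-1)a` of the progression
that are not divisible by `p` -/
def unitProduct (b a : ℤ) (p : ℕ) : ℤ :=
  ∏ k ∈ (range p).filter (fun k : ℕ => ¬ (p : ℤ) ∣ b + a * k), (b + a * k)

/-- `p` is a Wilson prime of the progression `b, b + a, b + 2a, …`: it does not divide `a`, and
Wilson's congruence for this progression holds modulo `p ^ 2` -/
def IsWilsonPrime (b a : ℤ) (p : ℕ) : Prop :=
  p.Prime ∧ ¬ (p : ℤ) ∣ a ∧ (p : ℤ) ^ 2 ∣ unitProduct b a p + 1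

/-- the number of Wilson primes `p ≤ y` of the progression -/
noncomputable def count (b a : ℤ) (y : ℕ) : ℕ := ((Icc 1 y).filter (fun p => IsWilsonPrime b a p)).card

theorem result :
    -- every value is rare: for `p` prime and `w` an integer, among any `N` consecutive orders
    (∀ p : ℕ, p.Prime → ∀ (w : ℤ) (a N : ℕ),
      (((Ioc a (a + N)).filter (fun n => 1 ≤ n ∧ n ≤ p ∧
        (p : ℤ) ^ 2 ∣ (-1) ^ n * ((n - 1)! : ℕ) * ((p - n)! : ℕ) - w)).card : ℝ) ≤
          3 / 2 * (N : ℝ) ^ (2 / 3 : ℝ) + 1) ∧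
    -- two orders have few common Wilson primes
    (∀ n m : ℕ, n < m →
      {p : ℕ | IsWilsonPrimeOfOrder n p ∧ IsWilsonPrimeOfOrder m p}.encard ≤ (m - n - 1 : ℕ)) ∧
    -- for all orders but at most one there are infinitely many primes which are not Wilson primes
    (∀ n m : ℕ, n < m → {p : ℕ | p.Prime ∧ ¬ IsWilsonPrimeOfOrder n p}.Infinite ∨
      {p : ℕ | p.Prime ∧ ¬ IsWilsonPrimeOfOrder m p}.Infinite) ∧
    -- the lower relative densities of the Wilson primes of all orders add up to at most one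
    (∀ (S : Finset ℕ) (d : ℕ → ℝ), (∀ n ∈ S, 1 ≤ n) →
      (∀ n ∈ S, ∃ x0 : ℕ, ∀ x : ℕ, x0 ≤ x → d n * Nat.primeCounting x ≤ W n x) →
      ∑ n ∈ S, d n ≤ 1) ∧
    -- averages over the orders
    (∀ N x : ℕ, ∑ n ∈ Icc 1 N, W n x ≤ Nat.primeCounting x + N.choose 3 ∧
      (∑ n ∈ Icc 1 N, W n x) ^ 2 ≤
        Nat.primeCounting x * (∑ n ∈ Icc 1 N, W n x + 2 * N.choose 3) ∧
      ((∑ n ∈ Icc 1 N, W n x : ℕ) : ℝ) ≤
        Nat.primeCounting x * (3 / 2 * (N : ℝ) ^ (2 / 3 : ℝ) + 1)) ∧
    -- all but `δ N` of the orders `n ≤ N`, all `x` at the same time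
    (∀ N : ℕ, 1 ≤ N → ∀ δ : ℝ, 0 < δ →
      (((Icc 1 N).filter (fun n => ∃ x : ℕ, 2 ≤ x ∧
        (84 / δ * Real.log x ^ 2 * (x / (N : ℝ) ^ (1 / 3 : ℝ)) < W n x ∨
          84 / δ * Real.log x ^ 2 * (x / N + (N : ℝ) ^ 2) < W n x))).card : ℝ) ≤ δ * N) ∧
    -- progressions with the difference `a`: complete residue systems
    (∀ p : ℕ, p.Prime → p ≠ 2 → ∀ a c : ℤ, ¬ (p : ℤ) ∣ a →
      (((Ioc c (c + p)).filter (fun b => IsWilsonPrime b a p)).card : ℝ) ≤
        3 / 2 * (p : ℝ) ^ (2 / 3 : ℝ) + 1) ∧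
    -- progressions with the difference `a`: the average over `b`
    (∀ (a c : ℤ) (X y : ℕ), y ≤ X →
      ∑ b ∈ Ioc c (c + X), (count b a y : ℝ) ≤ 8 * X * (y : ℝ) ^ (2 / 3 : ℝ)) := by
  refine ⟨?_, ?_, ?_, ?_, ?_, ?_, ?_, ?_⟩
  · intro p hp w a N
    exact Run7.h202.Wil.card_value hp w a N _ (filter_subset _ _) fun n hn => (mem_filter.1 hn).2
  · intro n m h
    exact Run7.h202.Wil.encard_pair h
  · intro n m h
    exact Run7.h202.Wil.two_orders h
  · intro S d hS h
    refine Run7.h202.Wil.lower_density S hS d fun n hn => ?_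
    obtain ⟨x0, hx0⟩ := h n hn
    refine ⟨x0, fun x hx => ?_⟩
    rw [Run7.h202.Wil.pr_eq]
    exact hx0 x hx
  · intro N x
    rw [← Run7.h202.Wil.pr_eq]
    exact ⟨Run7.h202.Wil.sum_W_le N x, Run7.h202.Wil.sum_W_sq N x, Run7.h202.Wil.sum_W_real N x⟩
  · intro N hN δ hδ
    exact Run7.h202.Wil.typical hN hδ _ (filter_subset _ _) fun n hn => (mem_filter.1 hn).2
  · intro p hp hp2 a c ha
    exact Run7.h202.Wil.card_b hp hp2 a ha c
  · intro a c X y hXy
    exact Run7.h202.Wil.avg_prog a c hXy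

end Pool.Agent.Results.MP_de5eaa_nt.OrdersOnAverage
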