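import Mathlib
import Pool.Agent.Run7.h854.WP.Win

/-!
# Wilson primes of arithmetic progressions form a Poisson process in the loglog scale

A prime `p` is a Wilson prime of the progression `b, b + a, b + 2a, …` if it does not divide `a`
and if Wilson's congruence for its first `p` terms holds modulo `p ^ 2`; the Wilson primes are those
of the progressions `0, 1, 2, …`. The first term `b` is arbitrary, the difference `a` runs through
`X` consecutive terms `h + q i` of an arbitrary progression.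

(2) The numbers of Wilson primes in several disjoint windows `(y ^ u, y ^ v]` have, in the limit
`y → ∞`, independent Poisson laws with the means `log (v / u)`, uniformly in `b`, `h`, `q`
and in `X ≥ y ^ K`. In particular there is no Wilson prime in `(y, y ^ c]` with probability
tending to `1 / c`.
(1) The same for arbitrary finite sets of primes `p = X ^ o(1)` moving to infinity; the mean is the
limit of the sum of the reciprocals.

Proof. Modulo `p ^ 2` there are exactly `p - 1` differences (one for each nonzero class modulo `p`)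
for which `p` is a Wilson prime (library `Helper92K9.WI` of the starting tree), and for different
primes these conditions are independent. Bonferroni's inequalities for the generating function reduce
the range of the primes to `X ^ o(1)`.
-/

set_option autoImplicit false

namespace Pool.Agent.Results.MP_de5eaa_nt.PoissonProcess

open Finset Filter Topology
open scoped Classical Nat

/-- the product of those among the first `p` terms `b, b + a, …, b + (p-1)a` of the progression
that are not divisible by `p` -/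
def unitProduct (b a : ℤ) (p : ℕ) : ℤ :=
  ∏ k ∈ (range p).filter (fun k : ℕ => ¬ (p : ℤ) ∣ b + a * k), (b + a * k)

/-- `p` is a Wilson prime of the progression `b, b + a, b + 2a, …`: it does not divide `a`, and
Wilson's congruence for this progression holds modulo `p ^ 2` -/
def IsWilsonPrime (b a : ℤ) (p : ℕ) : Prop :=
  p.Prime ∧ ¬ (p : ℤ) ∣ a ∧ (p : ℤ) ^ 2 ∣ unitProduct b a p + 1

/-- the number of the Wilson primes of the progression in the set `T` -/
noncomputable def number (b a : ℤ) (T : Set ℕ) : ℕ := {p : ℕ | p ∈ T ∧ IsWilsonPrime b a p}.ncard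

/-- the window `(y ^ u, y ^ v]` -/
def window (y : ℕ) (u v : ℝ) : Set ℕ := {p : ℕ | (y : ℝ) ^ u < p ∧ (p : ℝ) ≤ (y : ℝ) ^ v}

/-- the proportion of the indices `1 ≤ i ≤ X` such that the progression with the first term `b`
and the difference `h + q i` has exactly `k s` Wilson primes in `T s`, for every `s` -/
noncomputable def proportion {r : ℕ} (b h q : ℤ) (X : ℕ) (T : Fin r → Set ℕ) (k : Fin r → ℕ) : ℝ :=
  ({i ∈ Icc 1 X | ∀ s, number b (h + q * (i : ℤ)) (T s) = k s} : Finset ℕ).card / X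

lemma classical (p : ℕ) (hp : p.Prime) : unitProduct 0 1 p = ((p - 1)! : ℕ) := by
  unfold unitProduct
  have h1 : (range p).filter (fun k : ℕ => ¬ (p : ℤ) ∣ 0 + 1 * (k : ℤ)) = Ico 1 (p - 1 + 1) := by
    ext k
    rw [mem_filter, mem_range, mem_Ico, zero_add, one_mul, Int.natCast_dvd_natCast]
    have := hp.one_lt
    constructor
    · rintro ⟨h1, h2⟩
      refine ⟨?_, by omega⟩
      rcases Nat.eq_zero_or_pos k with rfl | h
      · exact absurd (dvd_zero p) h2
      · exact h
    · rintro ⟨h1, h2⟩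
      exact ⟨by omega, fun h => by
        have := Nat.le_of_dvd h1 h
        omega⟩
  rw [h1, ← Finset.prod_Ico_id_eq_factorial]
  push_cast
  exact prod_congr rfl fun k _ => by ring

lemma number_eq (b h q : ℤ) (i : ℕ) (T : Finset ℕ) (S : Set ℕ) (hS : ∀ p : ℕ, p.Prime → (p ∈ T ↔ p ∈ S)) :
    number b (h + q * (i : ℤ)) S = (T.filter (fun p => Run7.h854.WP.Wi ⟨b, h, q⟩ i p)).card := by
  unfold number
  rw [← Set.ncard_coe_finset]
  congr 1
  ext p
  rw [mem_coe, mem_filter]
  constructor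
  · rintro ⟨h1, h2⟩
    exact ⟨(hS p h2.1).2 h1, h2⟩
  · rintro ⟨h1, h2⟩
    exact ⟨(hS p h2.1).1 h1, h2⟩

lemma proportion_eq {r : ℕ} (b h q : ℤ) (X : ℕ) (T : Fin r → Finset ℕ) (S : Fin r → Set ℕ)
    (hS : ∀ s, ∀ p : ℕ, p.Prime → (p ∈ T s ↔ p ∈ S s)) (k : Fin r → ℕ) :
    proportion b h q X S k = (((Icc 1 X).filter (fun i : ℕ => ∀ s,
      ((T s).filter (fun p => Run7.h854.WP.Wi ⟨b, h, q⟩ i p)).card = k s)).card : ℝ) / X := by
  have h1 : ({i ∈ Icc 1 X | ∀ s, number b (h + q * (i : ℤ)) (S s) = k s} : Finset ℕ) =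
      (Icc 1 X).filter (fun i : ℕ => ∀ s,
        ((T s).filter (fun p => Run7.h854.WP.Wi ⟨b, h, q⟩ i p)).card = k s) := by
    ext i
    rw [mem_filter, mem_filter]
    refine and_congr_right fun _ => forall_congr' fun s => ?_
    rw [number_eq b h q i (T s) (S s) (hS s)]
  unfold proportion
  rw [h1]

/-- **Wilson primes of arithmetic progressions form a Poisson process in the loglog scale.** -/
theorem result :
    -- the classical Wilson primes
    (∀ p : ℕ, IsWilsonPrime 0 1 p ↔ p.Prime ∧ p ^ 2 ∣ (p - 1)! + 1) ∧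
    -- general sets of primes
    (∀ (r : ℕ) (X : ℕ → ℕ) (T : ℕ → Fin r → Finset ℕ) (lam : Fin r → ℝ) (b h q : ℕ → ℤ),
      Tendsto X atTop atTop →
      (∀ n, Pairwise fun s s' => Disjoint (T n s) (T n s')) →
      (∀ n s, ∀ p ∈ T n s, p.Prime ∧ ¬ (p : ℤ) ∣ q n) →
      (∀ K : ℕ, ∀ᶠ n in atTop, ∀ s, ∀ p ∈ T n s, K < p ∧ p ^ K ≤ X n) →
      (∀ s, Tendsto (fun n => ∑ p ∈ T n s, (1 : ℝ) / p) atTop (𝓝 (lam s))) →
      ∀ k : Fin r → ℕ, Tendsto (fun n => proportion (b n) (h n) (q n) (X n) (fun s => (T n s : Set ℕ)) k)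
        atTop (𝓝 (∏ s, (Real.exp (-lam s) * lam s ^ k s / (k s)!)))) ∧
    -- windows, uniformly
    (∀ (r : ℕ) (u v : Fin r → ℝ), (∀ s, 0 < u s ∧ u s < v s) →
      (Pairwise fun s s' => v s ≤ u s' ∨ v s' ≤ u s) →
      ∀ (k : Fin r → ℕ) (ε : ℝ), 0 < ε → ∃ K y₀ : ℕ, ∀ y : ℕ, y₀ ≤ y → ∀ X : ℕ, y ^ K ≤ X →
        ∀ b h q : ℤ, (∀ s, ∀ p ∈ window y (u s) (v s), p.Prime → ¬ (p : ℤ) ∣ q) →
          |proportion b h q X (fun s => window y (u s) (v s)) k -
            ∏ s, (u s / v s * Real.log (v s / u s) ^ k s / (k s)!)| ≤ ε) ∧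
    -- no Wilson prime in a window
    (∀ c ε : ℝ, 1 < c → 0 < ε → ∃ K y₀ : ℕ, ∀ y : ℕ, y₀ ≤ y → ∀ X : ℕ, y ^ K ≤ X →
      ∀ b h : ℤ, |(({i ∈ Icc 1 X | ∀ p : ℕ, y < p → (p : ℝ) ≤ (y : ℝ) ^ c →
        ¬ IsWilsonPrime b (h + i) p} : Finset ℕ).card : ℝ) / X - 1 / c| ≤ ε) := by
  have hwin : ∀ (r : ℕ) (u v : Fin r → ℝ), (∀ s, 0 < u s ∧ u s < v s) →
      (Pairwise fun s s' => v s ≤ u s' ∨ v s' ≤ u s) →
      ∀ (k : Fin r → ℕ) (ε : ℝ), 0 < ε → ∃ K y₀ : ℕ, ∀ y : ℕ, y₀ ≤ y → ∀ X : ℕ, y ^ K ≤ X →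
        ∀ b h q : ℤ, (∀ s, ∀ p ∈ window y (u s) (v s), p.Prime → ¬ (p : ℤ) ∣ q) →
          |proportion b h q X (fun s => window y (u s) (v s)) k -
            ∏ s, (u s / v s * Real.log (v s / u s) ^ k s / (k s)!)| ≤ ε := by
    intro r u v huv hd k ε hε
    obtain ⟨K, y₀, hK⟩ := Run7.h854.WP.windows u v huv hd k hε
    refine ⟨K, y₀, fun y hy X hX b h q hq => ?_⟩
    have h1 := hK y hy X hX ⟨b, h, q⟩ (fun s p hp => by
      rw [Run7.h854.WP.mem_WW] at hp
      exact hq s p ⟨hp.2.1, hp.2.2⟩ hp.1)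
    rw [proportion_eq b h q X (fun s => Run7.h854.WP.WW y (u s) (v s)) _ (fun s p hp => by
      rw [Run7.h854.WP.mem_WW]
      exact ⟨fun h => h.2, fun h => ⟨hp, h⟩⟩)]
    exact h1
  refine ⟨?_, ?_, hwin, ?_⟩
  · intro p
    constructor
    · rintro ⟨hp, _, h2⟩
      refine ⟨hp, ?_⟩
      rw [classical p hp] at h2
      exact_mod_cast h2
    · rintro ⟨hp, h2⟩
      refine ⟨hp, ?_, ?_⟩
      · intro h
        have h3 : p ∣ 1 := by exact_mod_cast h
        exact hp.one_lt.ne' (Nat.dvd_one.1 h3)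
      · rw [classical p hp]
        exact_mod_cast h2
  · intro r X T lam b h q hX hd hp hK hm k
    have hF : Run7.h854.WP.Fam X T lam := ⟨hd, fun n s p hps => (hp n s p hps).1,
      fun M => (hK M).mono fun n hn s p hps => (hn s p hps).1, hX,
      fun K => (hK K).mono fun n hn s p hps => (hn s p hps).2, hm⟩
    have h1 := Run7.h854.WP.law hF (fun n => ⟨b n, h n, q n⟩) (fun n s p hps => (hp n s p hps).2) k
    refine h1.congr fun n => ?_
    rw [proportion_eq (b n) (h n) (q n) (X n) (T n) _ (fun s p _ => by rw [mem_coe])]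
  · intro c ε hc hε
    obtain ⟨K, y₀, hK⟩ := hwin 1 (fun _ => 1) (fun _ => c) (fun _ => ⟨one_pos, hc⟩)
      (fun s s' hss => absurd (Subsingleton.elim s s') hss) (fun _ => 0) ε hε
    refine ⟨K, y₀, fun y hy X hX b h => ?_⟩
    have h1 := hK y hy X hX b h 1 (fun s p _ hp2 hp3 => by
      have h3 : p ∣ 1 := by exact_mod_cast hp3
      exact hp2.one_lt.ne' (Nat.dvd_one.1 h3))
    simp only [Fin.prod_univ_one, pow_zero, mul_one, Nat.factorial_zero, Nat.cast_one, div_one] at h1
    have h0 : ({i ∈ Icc 1 X | ∀ p : ℕ, y < p → (p : ℝ) ≤ (y : ℝ) ^ c →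
        ¬ IsWilsonPrime b (h + i) p} : Finset ℕ) =
        ({i ∈ Icc 1 X | ∀ s : Fin 1, number b (h + 1 * (i : ℤ)) (window y 1 c) = 0} : Finset ℕ) := ?_
    · rw [h0]
      exact h1
    ext i
    rw [mem_filter, mem_filter]
    refine and_congr_right fun _ => ?_
    have hfin : {p : ℕ | p ∈ window y 1 c ∧ IsWilsonPrime b (h + 1 * (i : ℤ)) p}.Finite := by
      refine (Set.finite_le_nat ⌊(y : ℝ) ^ c⌋₊).subset ?_
      rintro p ⟨⟨_, h3⟩, _⟩
      exact (Nat.le_floor_iff (by positivity)).2 h3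
    constructor
    · intro h2 s
      unfold number
      rw [Set.ncard_eq_zero hfin, Set.eq_empty_iff_forall_notMem]
      rintro p ⟨⟨h3, h4⟩, h5⟩
      rw [Real.rpow_one] at h3
      rw [one_mul] at h5
      exact h2 p (by exact_mod_cast h3) h4 h5
    · intro h2 p h3 h4 h5
      have h6 := h2 0
      unfold number at h6
      rw [Set.ncard_eq_zero hfin, Set.eq_empty_iff_forall_notMem] at h6
      refine h6 p ⟨⟨?_, h4⟩, ?_⟩
      · rw [Real.rpow_one]
        exact_mod_cast h3
      · rw [one_mul]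
        exact h5

end Pool.Agent.Results.MP_de5eaa_nt.PoissonProcess
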